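import Mathlib

set_option autoImplicit false
open Filter Topology Finset Real goldenRatio

namespace Pool.Agent.H.MP_287b0d_an

noncomputable def val {n : ℕ} (p : (Fin n → Fin 2) × (Fin n → Fin 2)) : ℝ :=
  ∑ i, (((p.1 i : ℕ) : ℝ) - ((p.2 i : ℕ) : ℝ)) * φ ^ (i : ℕ)

noncomputable def E (n : ℕ) (h : ℝ → ℝ) : ℝ := ∑ p : (Fin n → Fin 2) × (Fin n → Fin 2), h (val p)

noncomputable def T (h : ℝ → ℝ) (z : ℝ) : ℝ := 2 * h (φ * z) + h (φ * z + 1) + h (φ * z - 1)

lemma val_cons {n : ℕ} (a b : Fin 2) (p q : Fin n → Fin 2) :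
    val (n := n + 1) (Fin.cons a p, Fin.cons b q) = φ * val (p, q) + (((a : ℕ) : ℝ) - (b : ℕ)) := by
  simp only [val, Fin.sum_univ_succ, Fin.cons_zero, Fin.cons_succ, Fin.val_zero, pow_zero,
    Fin.val_succ, pow_succ, mul_sum]
  rw [add_comm, mul_one]
  congr 1
  exact sum_congr rfl fun i _ => by ring

lemma E_succ (n : ℕ) (h : ℝ → ℝ) : E (n + 1) h = E n (T h) := by
  simp only [E, Fintype.sum_prod_type]
  rw [← (Fin.consEquiv fun _ : Fin (n + 1) => Fin 2).sum_comp, Fintype.sum_prod_type, sum_comm]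
  refine sum_congr rfl fun p _ => ?_
  simp only [← (Fin.consEquiv fun _ : Fin (n + 1) => Fin 2).sum_comp, Fintype.sum_prod_type]
  simp only [Fin.sum_univ_two]
  rw [← sum_add_distrib, ← sum_add_distrib, ← sum_add_distrib]
  refine sum_congr rfl fun q _ => ?_
  have := fun a b => val_cons a b p q
  simp only [T]
  erw [this 0 0, this 0 1, this 1 0, this 1 1]
  simp [sub_eq_add_neg]
  ring

lemma E_add (k n : ℕ) (h : ℝ → ℝ) : E (n + k) h = E n (T^[k] h) := by
  induction k generalizing h with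
  | zero => rfl
  | succ k ih => rw [← add_assoc, E_succ, ih, Function.iterate_succ_apply]

lemma E_neg (n : ℕ) (h : ℝ → ℝ) : E n (fun x => h (-x)) = E n h := by
  rw [E, E, ← (Equiv.prodComm _ _).sum_comp]
  refine sum_congr rfl fun p _ => ?_
  congr 1
  simp only [val, Equiv.prodComm_apply, Prod.fst_swap, Prod.snd_swap, ← sum_neg_distrib]
  exact sum_congr rfl fun i _ => by ring

def Z (x : ℝ) : Prop := ∃ p q : ℤ, x = p + q * φ ∧ |p + q * ψ| ≤ 3

lemma s5 : 2.236 < √5 ∧ √5 < 2.237 :=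
  ⟨Real.lt_sqrt_of_sq_lt (by norm_num), (Real.sqrt_lt' (by norm_num)).2 (by norm_num)⟩

lemma phb : 1.618 < φ ∧ φ < 1.62 := by
  have := s5
  constructor <;> (unfold goldenRatio; linarith [this.1, this.2])

lemma psb : |ψ| ≤ 0.62 := by
  have := s5
  rw [abs_le]; constructor <;> (unfold goldenConj; linarith [this.1, this.2])

lemma Z_step {x : ℝ} (hx : Z x) (c : ℤ) (hc : |c| ≤ 1) : Z (φ * x + c) := by
  obtain ⟨p, q, rfl, h⟩ := hx
  refine ⟨q + c, p + q, ?_, ?_⟩
  · push_cast; linear_combination q * goldenRatio_sq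
  · have : ((q + c : ℤ) : ℝ) + (p + q : ℤ) * ψ = ψ * (p + q * ψ) + c := by
      push_cast; linear_combination (-q) * goldenConj_sq
    rw [this]
    refine (abs_add_le _ _).trans ?_
    rw [abs_mul]
    have h1 : |(c : ℝ)| ≤ 1 := by exact_mod_cast hc
    have := mul_le_mul psb h (abs_nonneg _) (by norm_num)
    linarith

lemma Z_sum (n : ℕ) (c : Fin n → ℤ) (hc : ∀ i, |c i| ≤ 1) : Z (∑ i, (c i : ℝ) * φ ^ (i : ℕ)) := by
  induction n with
  | zero => exact ⟨0, 0, by simp, by simp⟩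
  | succ n ih =>
    have := Z_step (ih (fun i => c i.succ) fun i => hc _) (c 0) (hc 0)
    rw [Fin.sum_univ_succ]
    convert this using 1
    simp only [Fin.val_zero, pow_zero, mul_one, Fin.val_succ, pow_succ, mul_sum]
    rw [add_comm]
    congr 1
    exact sum_congr rfl fun i _ => by ring

lemma Z_fin (t : ℝ) : {x | Z x ∧ |x| ≤ t}.Finite := by
  obtain ⟨N, hN⟩ := exists_nat_ge (3 * (|t| + 3))
  refine (((Set.finite_Icc (-N : ℤ) N).prod (Set.finite_Icc (-N : ℤ) N)).image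
    fun p : ℤ × ℤ => (p.1 + p.2 * φ : ℝ)).subset ?_
  rintro x ⟨⟨p, q, rfl, h1⟩, h2⟩
  have h3 := goldenRatio_sub_goldenConj
  have h4 := s5
  have h5 := psb
  have ht := le_abs_self t
  have ht0 := abs_nonneg t
  have hq : |(q : ℝ)| ≤ |t| + 3 := by
    have : |(q : ℝ) * √5| ≤ |t| + 3 := by
      rw [show (q : ℝ) * √5 = (p + q * φ) - (p + q * ψ) by rw [← h3]; ring]
      exact (abs_sub _ _).trans (by linarith)
    rw [abs_mul, abs_of_pos (by linarith : 0 < √5)] at this
    nlinarith [abs_nonneg (q : ℝ)]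
  have hp : |(p : ℝ)| ≤ 3 * (|t| + 3) := by
    rw [show (p : ℝ) = (p + q * ψ) - q * ψ by ring]
    refine (abs_sub _ _).trans ?_
    rw [abs_mul]
    nlinarith [abs_nonneg (q : ℝ), abs_nonneg ψ]
  refine ⟨(p, q), ⟨?_, ?_⟩, rfl⟩
  · rw [Set.mem_Icc, ← abs_le]
    have : |(p : ℝ)| ≤ N := hp.trans hN
    exact_mod_cast this
  · rw [Set.mem_Icc, ← abs_le]
    have : |(q : ℝ)| ≤ N := by linarith
    exact_mod_cast this

lemma T_mono (k : ℕ) {h g : ℝ → ℝ} : ∀ z, (∀ x, |x - φ ^ k * z| ≤ 2 ^ k → h x ≤ g x) →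
    T^[k] h z ≤ T^[k] g z := by
  induction k with
  | zero => intro z H; exact H z (by simp)
  | succ k ih =>
    intro z H
    have key : ∀ c : ℝ, |c| ≤ 1 → T^[k] h (φ * z + c) ≤ T^[k] g (φ * z + c) := by
      intro c hc
      refine ih _ fun x hx => H x ?_
      rw [show x - φ ^ (k + 1) * z = (x - φ ^ k * (φ * z + c)) + φ ^ k * c by ring]
      refine (abs_add_le _ _).trans ?_
      have h1 : φ ^ k ≤ 2 ^ k := pow_le_pow_left₀ goldenRatio_pos.le (by linarith [phb.2]) k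
      rw [abs_mul, abs_of_pos (pow_pos goldenRatio_pos k), pow_succ]
      nlinarith [pow_pos goldenRatio_pos k]
    simp only [Function.iterate_succ_apply', T]
    have a := key 0 (by simp)
    have b := key 1 (by simp)
    have c := key (-1) (by simp)
    rw [add_zero] at a
    rw [← sub_eq_add_neg] at c
    linarith

lemma T_cos (k : ℕ) (z : ℝ) : T^[k] (fun x => cos (2 * π * x)) z =
    (∏ j ∈ range k, (2 + 2 * cos (2 * π * φ ^ j))) * cos (2 * π * (φ ^ k * z)) := by
  induction k generalizing z with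
  | zero => simp
  | succ k ih =>
    simp only [Function.iterate_succ_apply', T, ih, prod_range_succ]
    rw [show 2 * π * (φ ^ k * (φ * z + 1)) = 2 * π * (φ ^ (k + 1) * z) + 2 * π * φ ^ k by ring,
      show 2 * π * (φ ^ k * (φ * z - 1)) = 2 * π * (φ ^ (k + 1) * z) - 2 * π * φ ^ k by ring,
      show 2 * π * (φ ^ k * (φ * z)) = 2 * π * (φ ^ (k + 1) * z) by ring, cos_add, cos_sub]
    ring

lemma T_const (k : ℕ) (c z : ℝ) : T^[k] (fun _ => c) z = 4 ^ k * c := by
  induction k generalizing z with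
  | zero => simp
  | succ k ih => simp only [Function.iterate_succ_apply', T, ih]; ring

lemma Z_pow (j : ℕ) : Z (φ ^ j) := by
  induction j with
  | zero => exact ⟨1, 0, by simp, by simp⟩
  | succ j ih => simpa [pow_succ'] using Z_step ih 0 (by simp)

lemma fac_pos (j : ℕ) : 0 < 2 + 2 * cos (2 * π * φ ^ j) := by
  obtain ⟨p, q, h, -⟩ := Z_pow j
  have h1 := neg_one_le_cos (2 * π * φ ^ j)
  by_contra hh
  have h2 : cos (2 * π * φ ^ j) = -1 := by linarith
  obtain ⟨k, hk⟩ := cos_eq_neg_one_iff.1 h2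
  have h3 : (1 : ℝ) + k * 2 = 2 * (p + q * φ) := by
    rw [← h]; apply mul_left_cancel₀ pi_pos.ne'; linarith
  by_cases hq : q = 0
  · subst hq
    have : (1 : ℤ) + k * 2 = 2 * p := by exact_mod_cast (by simpa using h3 : (1 : ℝ) + k * 2 = 2 * p)
    omega
  · have : Irrational (((2 * q : ℤ) : ℝ) * φ) := goldenRatio_irrational.intCast_mul (by omega)
    refine this.ne_int (1 + k * 2 - 2 * p) ?_
    push_cast; linarith

lemma cos6 {z : ℝ} (hz : Z z) : 1 / 4 ≤ cos (2 * π * (φ ^ 6 * z)) := by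
  obtain ⟨p, q, rfl, h⟩ := hz
  have e1 : φ ^ 6 = 8 * φ + 5 := by
    linear_combination (φ ^ 4 + φ ^ 3 + 2 * φ ^ 2 + 3 * φ + 5) * goldenRatio_sq
  have e2 : ψ ^ 6 = 8 * ψ + 5 := by
    linear_combination (ψ ^ 4 + ψ ^ 3 + 2 * ψ ^ 2 + 3 * ψ + 5) * goldenConj_sq
  have e : φ ^ 6 * (p + q * φ) = (18 * p + 29 * q : ℤ) - ψ ^ 6 * (p + q * ψ) := by
    rw [e1, e2]; push_cast
    linear_combination 8 * q * goldenRatio_sq + 8 * q * goldenConj_sq +
      (8 * p + 13 * q) * goldenRatio_add_goldenConj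
  rw [e, mul_sub, mul_comm (2 * π) ((_ : ℤ) : ℝ), cos_int_mul_two_pi_sub]
  refine le_trans ?_ one_sub_sq_div_two_le_cos
  have h1 : |ψ ^ 6 * (p + q * ψ)| ≤ 0.62 ^ 6 * 3 := by
    rw [abs_mul, abs_pow]; gcongr; exact psb
  have h2 : |2 * π * (ψ ^ 6 * (p + q * ψ))| ≤ 2 * 3.15 * (0.62 ^ 6 * 3) := by
    rw [abs_mul, abs_of_pos (by positivity : 0 < 2 * π)]; gcongr; exact pi_lt_d2.le
  have h3 := pow_le_pow_left₀ (abs_nonneg _) h2 2
  rw [sq_abs] at h3
  norm_num at h3 ⊢
  linarith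

noncomputable def I (t x : ℝ) : ℝ := if |x| ≤ t then 1 else 0

lemma kap : ∃ κ : ℝ, 0 < κ ∧ κ ≤ 1 ∧ ∀ t z, Z z →
    T^[6] (fun x => (κ + 1) * I (t - 128) x - I t x) z ≤
      T^[6] (fun x => I t x * cos (2 * π * x)) z := by
  set P := ∏ j ∈ range 6, (2 + 2 * cos (2 * π * φ ^ j)) with hP
  have P0 : 0 < P := prod_pos fun j _ => fac_pos j
  refine ⟨min 1 (P / 4 ^ 7), by positivity, min_le_left _ _, fun t z hz => ?_⟩
  set κ := min 1 (P / 4 ^ 7) with hκ
  have k0 : 0 < κ := by positivity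
  by_cases h : |φ ^ 6 * z| ≤ t - 64
  · calc _ ≤ T^[6] (fun _ => κ) z := T_mono 6 z fun x hx => by
          have : |x| ≤ t := by
            have := abs_sub_abs_le_abs_sub x (φ ^ 6 * z); norm_num at hx; linarith
          simp only [I, this, if_true]; split_ifs <;> linarith
      _ ≤ T^[6] (fun x => cos (2 * π * x)) z := by
          rw [T_const, T_cos, ← hP]
          have a := cos6 hz
          have b : κ ≤ P / 4 ^ 7 := min_le_right _ _
          nlinarith
      _ ≤ _ := T_mono 6 z fun x hx => by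
          have : |x| ≤ t := by
            have := abs_sub_abs_le_abs_sub x (φ ^ 6 * z); norm_num at hx; linarith
          simp [I, this]
  · refine T_mono 6 z fun x hx => ?_
    have : ¬ |x| ≤ t - 128 := by
      have := abs_sub_abs_le_abs_sub (φ ^ 6 * z) x
      rw [abs_sub_comm] at hx; norm_num at hx; linarith
    simp only [I, this, if_false]
    split_ifs <;> linarith [neg_one_le_cos (2 * π * x)]

lemma TI (s z : ℝ) : T (I s) z ≤ 4 * I ((s + 1) / φ) z := by
  by_cases h : |z| ≤ (s + 1) / φ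
  · simp only [T, I, h, if_true]; split_ifs <;> norm_num
  · have h' := h
    rw [le_div_iff₀ goldenRatio_pos, not_le] at h'
    have e : |φ * z| = |z| * φ := by rw [abs_mul, abs_of_pos goldenRatio_pos, mul_comm]
    have a : ¬ |φ * z| ≤ s := by linarith
    have b : ¬ |φ * z + 1| ≤ s := by
      have := abs_sub (φ * z + 1) 1; rw [add_sub_cancel_right, abs_one] at this; linarith
    have c : ¬ |φ * z - 1| ≤ s := by
      have := abs_add_le (φ * z - 1) 1; rw [sub_add_cancel, abs_one] at this; linarith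
    simp only [T, I, h, a, b, c, if_false]; norm_num

lemma subexp {W : ℝ → ℝ} (hm : Monotone W) (h1 : 0 < W 1) {K ε : ℝ} (hε : 0 < ε) (hε1 : ε < 1)
    (hK : ∀ s, 0 ≤ s → W s ≤ K * W ((s + 1) / φ)) (L : ℕ) :
    ∃ᶠ n : ℕ in atTop, (1 - ε) * W n ≤ W (n - L) := by
  by_contra hh
  obtain ⟨n0, h0⟩ := eventually_atTop.1 (not_frequently.1 hh)
  have it : ∀ j m : ℕ, n0 ≤ m → W m ≤ (1 - ε) ^ j * W (m + j * L : ℕ) := by
    intro j
    induction j with
    | zero => simp
    | succ j ih =>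
      intro m hm'
      refine (ih m hm').trans ?_
      have := (not_le.1 (h0 (m + (j + 1) * L) (by nlinarith))).le
      rw [show (((m + (j + 1) * L : ℕ) : ℝ) - L) = (m + j * L : ℕ) by push_cast; ring] at this
      rw [pow_succ, mul_assoc]
      exact mul_le_mul_of_nonneg_left this (pow_nonneg (by linarith) _)
  obtain ⟨j, hj⟩ := exists_pow_lt_of_lt_one (show 0 < 1 / (|K| + 1) by positivity)
    (show 1 - ε < 1 by linarith)
  set m := n0 + 2 * (j * L) + 2 with hm'
  have a := it j m (by omega)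
  have b := hK (m + j * L : ℕ) (by positivity)
  have c : W (((m + j * L : ℕ) + 1) / φ) ≤ W m := hm (by
    rw [div_le_iff₀ goldenRatio_pos]
    have h2 : ((2 * (j * L) + 2 : ℕ) : ℝ) ≤ m := by exact_mod_cast (by omega)
    have h3 : (0 : ℝ) ≤ m := by positivity
    push_cast at h2 ⊢
    nlinarith [phb.1])
  have d : 0 < W m := h1.trans_le (hm (by exact_mod_cast (by omega)))
  have e : 0 < W (((m + j * L : ℕ) + 1) / φ) := h1.trans_le (hm (by
    rw [le_div_iff₀ goldenRatio_pos]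
    have h2 : (2 : ℝ) ≤ (m + j * L : ℕ) := by exact_mod_cast (by omega)
    linarith [phb.2]))
  have f : W (m + j * L : ℕ) ≤ (|K| + 1) * W m := by
    refine b.trans ?_
    have := le_abs_self K
    have := abs_nonneg K
    nlinarith
  rw [lt_div_iff₀ (by positivity)] at hj
  have g := mul_le_mul_of_nonneg_left f (pow_nonneg (by linarith : 0 ≤ 1 - ε) j)
  nlinarith

def X : Set ℝ :=
  {x | ∃ (n : ℕ) (c : Fin n → ℤ), (∀ i, |c i| ≤ 1) ∧ x = ∑ i, (c i : ℝ) * φ ^ (i : ℕ)}

noncomputable def N (n : ℕ) (x : ℝ) : ℕ :=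
  Nat.card {p : (Fin n → Fin 2) × (Fin n → Fin 2) // val p = x}

lemma val_X {n : ℕ} (p : (Fin n → Fin 2) × (Fin n → Fin 2)) : val p ∈ X :=
  ⟨n, fun i => ((p.1 i : ℕ) : ℤ) - (p.2 i : ℕ), fun i => by
    have := (p.1 i).2; have := (p.2 i).2; simp only [abs_le]; omega, by simp [val]⟩

lemma X_Z {x : ℝ} (h : x ∈ X) : Z x := by
  obtain ⟨n, c, hc, rfl⟩ := h
  exact Z_sum n c hc

lemma X_fin (t : ℝ) : (X ∩ Set.Icc 0 t).Finite :=
  (Z_fin t).subset fun x hx => ⟨X_Z hx.1, by rw [abs_of_nonneg hx.2.1]; exact hx.2.2⟩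

lemma E_mono (n : ℕ) {f g : ℝ → ℝ} (h : ∀ z, Z z → f z ≤ g z) : E n f ≤ E n g :=
  sum_le_sum fun p _ => h _ (X_Z (val_X p))

noncomputable def J (t x : ℝ) : ℝ := if x ∈ Set.Icc 0 t then 1 else 0

lemma IJ {t : ℝ} (ht : 0 ≤ t) {g : ℝ → ℝ} (hg : ∀ x, g (-x) = g x) (h0 : g 0 = 1) (n : ℕ) :
    E n (fun x => I t x * g x) = 2 * E n (fun x => J t x * g x) - E n fun x => J 0 x * 1 := by
  rw [two_mul]
  nth_rewrite 2 [← E_neg n fun x => J t x * g x]
  simp only [E, ← sum_add_distrib, ← sum_sub_distrib]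
  refine sum_congr rfl fun p _ => ?_
  generalize val p = x
  simp only [I, J, hg, Set.mem_Icc, abs_le]
  rcases lt_trichotomy x 0 with h | rfl | h
  · have a : ¬ 0 ≤ x := not_le.2 h
    have b : x ≤ t := by linarith
    simp [a, b, h.le, neg_le]
  · simp [ht, h0]
  · have a : ¬ x ≤ 0 := not_le.2 h
    have b : -t ≤ x := by linarith
    simp [a, b, h.le]

variable {lam : ℝ} {μ : ℝ → ℝ}

lemma lim (hμ : ∀ x ∈ X, Tendsto (fun n => (N n x : ℝ) / lam ^ n) atTop (𝓝 (μ x)))
    (t : ℝ) (g : ℝ → ℝ) : Tendsto (fun n => E n (fun x => J t x * g x) / lam ^ n) atTop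
      (𝓝 (∑ᶠ x ∈ X ∩ Set.Icc 0 t, μ x * g x)) := by
  classical
  rw [finsum_mem_eq_finite_toFinset_sum _ (X_fin t)]
  refine (tendsto_finsetSum _ fun x hx =>
    (hμ x ((X_fin t).mem_toFinset.1 hx).1).mul_const (g x)).congr fun n => ?_
  have : ∀ x, (N n x : ℝ) * g x =
      ∑ p : (Fin n → Fin 2) × (Fin n → Fin 2), if val p = x then g x else 0 := by
    intro x
    rw [N, Nat.card_eq_fintype_card, Fintype.card_subtype, ← sum_filter, sum_const, nsmul_eq_mul]
  simp only [div_mul_eq_mul_div, this, ← sum_div]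
  congr 1
  rw [sum_comm, E]
  refine sum_congr rfl fun p _ => ?_
  rw [sum_ite_eq]
  simp [J, val_X p]

theorem main (hl : 0 < lam)
    (hμ : ∀ x ∈ X, Tendsto (fun n => (N n x : ℝ) / lam ^ n) atTop (𝓝 (μ x)))
    (hW : 0 < ∑ᶠ x ∈ X ∩ Set.Icc 0 1, μ x) : ∃ ε : ℝ, 0 < ε ∧ ∃ᶠ n : ℕ in atTop,
      ε ≤ (∑ᶠ x ∈ X ∩ Set.Icc 0 (n : ℝ), μ x * cos (2 * π * x)) /
        ∑ᶠ x ∈ X ∩ Set.Icc 0 (n : ℝ), μ x := by
  set W : ℝ → ℝ := fun t => ∑ᶠ x ∈ X ∩ Set.Icc 0 t, μ x with hWd
  have lW : ∀ t, Tendsto (fun n => E n (fun x => J t x * 1) / lam ^ n) atTop (𝓝 (W t)) :=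
    fun t => by simpa only [mul_one] using lim hμ t fun _ => 1
  have hm : Monotone W := fun s t hst => le_of_tendsto_of_tendsto' (lW s) (lW t) fun n => by
    gcongr
    refine E_mono n fun z _ => ?_
    simp only [J]
    split_ifs with a b
    · exact le_rfl
    · exact absurd (Set.Icc_subset_Icc_right hst a) b
    · norm_num
    · exact le_rfl
  have W0 : 0 ≤ W 0 := ge_of_tendsto' (lW 0) fun n => div_nonneg
    (sum_nonneg fun p _ => by simp only [J]; split_ifs <;> norm_num) (by positivity)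
  have lI : ∀ t, 0 ≤ t → Tendsto (fun n => E n (I t) / lam ^ n) atTop (𝓝 (2 * W t - W 0)) := by
    intro t ht
    refine (((lW t).const_mul 2).sub (lW 0)).congr fun n => ?_
    have := IJ ht (g := fun _ => 1) (fun _ => rfl) rfl n
    simp only [mul_one] at this ⊢
    rw [show I t = fun x => I t x from rfl, this]; ring
  have hK : ∀ s, 0 ≤ s → W s ≤ 8 / lam * W ((s + 1) / φ) := by
    intro s hs
    have a := (lI s hs).comp (tendsto_add_atTop_nat 1)
    have b := (lI ((s + 1) / φ) (div_nonneg (by linarith) goldenRatio_pos.le)).const_mul (4 / lam)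
    have := le_of_tendsto_of_tendsto' a b fun n => by
      simp only [Function.comp, E_succ]
      have : E n (T (I s)) ≤ 4 * E n (I ((s + 1) / φ)) := by
        rw [E, E, mul_sum]; exact sum_le_sum fun p _ => TI s _
      rw [div_mul_div_comm, pow_succ']
      gcongr
    have c := hm hs
    have d : 0 ≤ 4 / lam * W 0 := by positivity
    have e : 8 / lam = 2 * (4 / lam) := by ring
    rw [e]; linarith
  obtain ⟨κ, k0, k1, hκ⟩ := kap
  refine ⟨κ / 2, by positivity, ?_⟩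
  refine ((subexp hm hW (ε := κ / 4) (by positivity) (by linarith) hK 128).and_eventually
    (eventually_ge_atTop 128)).mono fun n ⟨h1, h2⟩ => ?_
  have h3 : (128 : ℝ) ≤ n := by exact_mod_cast h2
  have hp : 0 < W n := hW.trans_le (hm (by linarith))
  have lS : Tendsto (fun k => E k (fun x => I n x * cos (2 * π * x)) / lam ^ k) atTop
      (𝓝 (2 * (∑ᶠ x ∈ X ∩ Set.Icc 0 (n : ℝ), μ x * cos (2 * π * x)) - W 0)) := by
    refine (((lim hμ n fun x => cos (2 * π * x)).const_mul 2).sub (lW 0)).congr fun k => ?_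
    rw [IJ (by linarith) (fun x => by rw [mul_neg, cos_neg]) (by simp) k]; ring
  have := le_of_tendsto_of_tendsto (((lI (n - 128) (by linarith)).const_mul (κ + 1)).sub
    (lI n (by linarith))) lS (by
      filter_upwards [eventually_ge_atTop 6] with k hk
      obtain ⟨k, rfl⟩ := Nat.exists_eq_add_of_le' hk
      have a := E_mono k (hκ n)
      rw [← E_add, ← E_add] at a
      have b : E (k + 6) (fun x => (κ + 1) * I (n - 128) x - I n x) =
          (κ + 1) * E (k + 6) (I (n - 128)) - E (k + 6) (I n) := by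
        simp only [E, mul_sum, sum_sub_distrib]
      rw [← mul_div_assoc, ← sub_div, ← b]
      gcongr)
  rw [le_div_iff₀ hp]
  have h4 : (1 - κ / 4) * W n ≤ W (n - 128) := by exact_mod_cast h1
  have h5 := mul_le_mul_of_nonneg_left h4 (by linarith : 0 ≤ κ + 1)
  have h6 : 0 ≤ (1 - κ) * W 0 := mul_nonneg (by linarith) W0
  have h7 : 0 ≤ κ * (1 - κ) * W n := by
    have : 0 ≤ 1 - κ := by linarith
    positivity
  show κ / 2 * W n ≤ _
  nlinarith

end Pool.Agent.H.MP_287b0d_an
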